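import Pool.Agent.Helper98.DISC.GoalsD

/-!
# Project DISC (MP_105b7b_pr), packet CRD
-/

open MeasureTheory Set Filter Topology
open scoped ENNReal

noncomputable section

namespace Pool.Agent.Helper2.DISC
open Pool.Agent.Helper98.DISC

theorem CRD : S_CRD := by
  intro ι _ _ _ g
  obtain ⟨m, hm⟩ : ∃ m, Fintype.card ι = m + 1 :=
    ⟨Fintype.card ι - 1, (Nat.sub_add_cancel Fintype.card_pos).symm⟩
  let e : Fin (m + 1) ≃o ι := Fintype.orderIsoFinOfCardEq ι hm
  have h1 : ∀ j : Fin (m + 1), Fintype.card {i : ι // i < e j} = j := by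
    intro j
    rw [Fintype.card_congr (e.toEquiv.subtypeEquiv (p := fun i => i < j) (fun i => by
      exact (e.lt_iff_lt).symm)).symm, Fintype.card_subtype]
    rw [show (Finset.univ.filter fun i : Fin (m + 1) => i < j) = Finset.Iio j by ext; simp,
      Fin.card_Iio]
  have h2 : ∀ j : Fin (m + 1), Fintype.card {i : ι // e j < i} = m - j := by
    intro j
    rw [Fintype.card_congr (e.toEquiv.subtypeEquiv (p := fun i => j < i) (fun i => by
      exact (e.lt_iff_lt).symm)).symm, Fintype.card_subtype]
    rw [show (Finset.univ.filter fun i : Fin (m + 1) => j < i) = Finset.Ioi j by ext; simp,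
      Fin.card_Ioi]
    omega
  rw [← Equiv.sum_comp e.toEquiv]
  have h3 : ∀ j : Fin (m + 1), g (Fintype.card {i : ι // i < e.toEquiv j})
      (Fintype.card {i : ι // e.toEquiv j < i}) = g j (m - j) := by
    intro j
    exact congrArg₂ g (h1 j) (h2 j)
  rw [Finset.sum_congr rfl (fun j _ => h3 j), hm, Nat.add_sub_cancel,
    Finset.Nat.sum_antidiagonal_eq_sum_range_succ (fun a b => g a b)]
  exact Fin.sum_univ_eq_sum_range (fun k => g k (m - k)) (m + 1)

end Pool.Agent.Helper2.DISC
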