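import Pool.Agent.Helper98.DISC.GoalsE2

/-!
# Project DISC (MP_105b7b_pr), packet RATG
-/

open MeasureTheory Set Filter Topology

noncomputable section

namespace Pool.Agent.Helper2.DISC
open Pool.Agent.Helper98.DISC

/-- the partial fraction expansion -/
def pf (K n : ℕ) (a : ℤ → ℕ → ℚ) (z : ℂ) : ℂ :=
  ∑ m ∈ Finset.Icc (-(K : ℤ)) K, ∑ l ∈ Finset.range n, (a m l : ℂ) / (z - m) ^ (l + 1)

/-- the sums over the poles -/
def AA (K : ℕ) (a : ℤ → ℕ → ℚ) (l : ℕ) : ℚ := ∑ m ∈ Finset.Icc (-(K : ℤ)) K, a m l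

theorem sub_ne {K : ℕ} {z : ℂ} (hz : (K : ℝ) < ‖z‖) {m : ℤ} (hm : m ∈ Finset.Icc (-(K : ℤ)) K) :
    z - m ≠ 0 := by
  rw [Finset.mem_Icc] at hm
  intro h
  rw [sub_eq_zero] at h
  rw [h, Complex.norm_intCast] at hz
  have : |(m : ℝ)| ≤ K := by
    rw [abs_le]
    constructor
    · exact_mod_cast hm.1
    · exact_mod_cast hm.2
  linarith

theorem integral_pf (hI : S_PFI) (n : ℕ) (hn : 1 ≤ n) (a : ℤ → ℕ → ℚ) :
    (∮ z in C(0, n), pf (n - 1) n a z * Complex.exp (2 * Real.pi * Complex.I * z)) =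
      ∑ l ∈ Finset.range n, (AA (n - 1) a l : ℂ) *
        ((2 * Real.pi * Complex.I) ^ (l + 1) / (l.factorial : ℂ)) := by
  have hK : ∀ z ∈ Metric.sphere (0 : ℂ) n, ((n - 1 : ℕ) : ℝ) < ‖z‖ := by
    intro z hz
    rw [mem_sphere_zero_iff_norm] at hz
    rw [hz]
    exact_mod_cast Nat.sub_lt hn one_pos
  have h1 : (∮ z in C(0, n), pf (n - 1) n a z * Complex.exp (2 * Real.pi * Complex.I * z)) =
      ∮ z in C(0, n), ∑ m ∈ Finset.Icc (-((n - 1 : ℕ) : ℤ)) (n - 1 : ℕ), ∑ l ∈ Finset.range n,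
        (a m l : ℂ) * (Complex.exp (2 * Real.pi * Complex.I * z) / (z - m) ^ (l + 1)) := by
    refine circleIntegral.integral_congr (Nat.cast_nonneg n) fun z _ => ?_
    simp only [pf]
    rw [Finset.sum_mul]
    refine Finset.sum_congr rfl fun m _ => ?_
    rw [Finset.sum_mul]
    refine Finset.sum_congr rfl fun l _ => ?_
    ring
  have hint : ∀ m ∈ Finset.Icc (-((n - 1 : ℕ) : ℤ)) (n - 1 : ℕ), ∀ l : ℕ,
      CircleIntegrable (fun z : ℂ => (a m l : ℂ) *
        (Complex.exp (2 * Real.pi * Complex.I * z) / (z - m) ^ (l + 1))) 0 n := by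
    intro m hm l
    apply ContinuousOn.circleIntegrable (Nat.cast_nonneg n)
    refine continuousOn_const.mul (ContinuousOn.div (by fun_prop) (by fun_prop) ?_)
    intro z hz
    exact pow_ne_zero _ (sub_ne (hK z hz) hm)
  rw [h1, circleIntegral.integral_fun_sum]
  · have h2 : ∀ m ∈ Finset.Icc (-((n - 1 : ℕ) : ℤ)) (n - 1 : ℕ),
        (∮ z in C(0, n), ∑ l ∈ Finset.range n,
        (a m l : ℂ) * (Complex.exp (2 * Real.pi * Complex.I * z) / (z - m) ^ (l + 1))) =
        ∑ l ∈ Finset.range n, (a m l : ℂ) *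
          ((2 * Real.pi * Complex.I) ^ (l + 1) / (l.factorial : ℂ)) := by
      intro m hm
      rw [circleIntegral.integral_fun_sum (fun l _ => hint m hm l)]
      refine Finset.sum_congr rfl fun l _ => ?_
      rw [circleIntegral.integral_const_mul, hI n m l]
      rw [Finset.mem_Icc] at hm
      rw [abs_lt]
      omega
    rw [Finset.sum_congr rfl h2, Finset.sum_comm]
    refine Finset.sum_congr rfl fun l _ => ?_
    rw [← Finset.sum_mul, AA]
    push_cast
    rfl
  · intro m hm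
    apply ContinuousOn.circleIntegrable (Nat.cast_nonneg n)
    apply continuousOn_finset_sum
    intro l _
    refine continuousOn_const.mul (ContinuousOn.div (by fun_prop) (by fun_prop) ?_)
    intro z hz
    exact pow_ne_zero _ (sub_ne (hK z hz) hm)

/-- the real version -/
def pfR (K n : ℕ) (a : ℤ → ℕ → ℚ) (x : ℝ) : ℝ :=
  ∑ m ∈ Finset.Icc (-(K : ℤ)) K, ∑ l ∈ Finset.range n, (a m l : ℝ) / (x - m) ^ (l + 1)

theorem pf_ofReal (K n : ℕ) (a : ℤ → ℕ → ℚ) (x : ℝ) : pf K n a x = (pfR K n a x : ℂ) := by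
  rw [pf, pfR]
  push_cast
  rfl

theorem tendsto_term (m : ℤ) (l : ℕ) (c : ℝ) :
    Tendsto (fun x : ℝ => x * (c / (x - m) ^ (l + 1))) atTop (𝓝 (c * 0 ^ l)) := by
  have h1 : Tendsto (fun x : ℝ => x - m) atTop atTop := by
    simpa [sub_eq_add_neg] using tendsto_atTop_add_const_right atTop (-(m : ℝ)) tendsto_id
  have h2 : Tendsto (fun x : ℝ => (x - m)⁻¹) atTop (𝓝 0) := tendsto_inv_atTop_zero.comp h1
  have h3 : Tendsto (fun x : ℝ => c * ((x - m)⁻¹) ^ l + c * m * ((x - m)⁻¹) ^ (l + 1)) atTop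
      (𝓝 (c * 0 ^ l + c * m * 0 ^ (l + 1))) :=
    ((h2.pow l).const_mul c).add ((h2.pow (l + 1)).const_mul (c * m))
  have h4 : c * 0 ^ l + c * m * 0 ^ (l + 1) = c * 0 ^ l := by
    rw [zero_pow (Nat.succ_ne_zero l), mul_zero, add_zero]
  rw [h4] at h3
  refine h3.congr' ?_
  filter_upwards [h1.eventually_gt_atTop 0] with x hx
  have : x - m ≠ 0 := hx.ne'
  rw [inv_pow, inv_pow]
  field_simp
  ring

theorem AA_zero (n : ℕ) (hn : 1 ≤ n) (a : ℤ → ℕ → ℚ)
    (h : ∃ C r : ℝ, ∀ z : ℂ, r < ‖z‖ → ‖pf (n - 1) n a z‖ * ‖z‖ ^ (2 * n) ≤ C) :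
    AA (n - 1) a 0 = 0 := by
  obtain ⟨C, r, hC⟩ := h
  have h1 : Tendsto (fun x : ℝ => x * pfR (n - 1) n a x) atTop (𝓝 ((AA (n - 1) a 0 : ℚ) : ℝ)) := by
    have h2 : Tendsto (fun x : ℝ => ∑ m ∈ Finset.Icc (-((n - 1 : ℕ) : ℤ)) (n - 1 : ℕ),
        ∑ l ∈ Finset.range n, x * ((a m l : ℝ) / (x - m) ^ (l + 1))) atTop
        (𝓝 (∑ m ∈ Finset.Icc (-((n - 1 : ℕ) : ℤ)) (n - 1 : ℕ),
        ∑ l ∈ Finset.range n, (a m l : ℝ) * 0 ^ l)) :=
      tendsto_finsetSum _ fun m _ => tendsto_finsetSum _ fun l _ => tendsto_term m l _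
    have h3 : ∑ m ∈ Finset.Icc (-((n - 1 : ℕ) : ℤ)) (n - 1 : ℕ),
        ∑ l ∈ Finset.range n, (a m l : ℝ) * 0 ^ l = ((AA (n - 1) a 0 : ℚ) : ℝ) := by
      rw [AA]
      push_cast
      refine Finset.sum_congr rfl fun m _ => ?_
      rw [Finset.sum_eq_single 0]
      · simp
      · intro l _ hl
        rw [zero_pow hl, mul_zero]
      · intro h0
        exact absurd (Finset.mem_range.mpr hn) h0
    rw [h3] at h2
    refine h2.congr fun x => ?_
    rw [pfR, Finset.mul_sum]
    refine Finset.sum_congr rfl fun m _ => ?_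
    rw [Finset.mul_sum]
  have h4 : Tendsto (fun x : ℝ => x * pfR (n - 1) n a x) atTop (𝓝 0) := by
    have h5 : Tendsto (fun x : ℝ => C * x⁻¹) atTop (𝓝 0) := by
      simpa using tendsto_inv_atTop_zero.const_mul C
    refine squeeze_zero_norm' ?_ h5
    filter_upwards [eventually_gt_atTop r, eventually_ge_atTop 1] with x hx1 hx2
    have hx0 : 0 < x := by linarith
    have h6 := hC (x : ℂ) (by rw [Complex.norm_real, Real.norm_of_nonneg hx0.le]; exact hx1)
    rw [pf_ofReal, Complex.norm_real, Complex.norm_real, Real.norm_of_nonneg hx0.le] at h6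
    rw [norm_mul, Real.norm_of_nonneg hx0.le, ← div_eq_mul_inv, le_div_iff₀ hx0]
    have h7 : x ^ 2 ≤ x ^ (2 * n) := pow_le_pow_right₀ hx2 (by omega)
    have h8 : 0 ≤ ‖pfR (n - 1) n a x‖ := norm_nonneg _
    calc x * ‖pfR (n - 1) n a x‖ * x = ‖pfR (n - 1) n a x‖ * x ^ 2 := by ring
      _ ≤ ‖pfR (n - 1) n a x‖ * x ^ (2 * n) := mul_le_mul_of_nonneg_left h7 h8
      _ ≤ C := h6
  have := tendsto_nhds_unique h1 h4
  exact_mod_cast this

theorem pow_I_even (k : ℕ) : Complex.I ^ (2 * k) = (((-1 : ℝ) ^ k : ℝ) : ℂ) := by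
  rw [pow_mul, Complex.I_sq]
  push_cast
  rfl

theorem RATG : S_RATG := by
  intro hT hI hD hF n _ hn
  obtain ⟨a, ha, ha0, hac⟩ := hT n (by omega)
  obtain ⟨C, r, hC⟩ := hD n (by omega)
  -- the expansion of `yk`
  have hpf : ∀ z : ℂ, ((n - 1 : ℕ) : ℝ) < ‖z‖ → yk n z = pf (n - 1) n a z := fun z hz => ha z hz
  have hA0 : AA (n - 1) a 0 = 0 := by
    refine AA_zero n (by omega) a ⟨C, max r (n - 1 : ℕ), fun z hz => ?_⟩
    rw [← hpf z (lt_of_le_of_lt (le_max_right _ _) hz)]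
    exact hC z (lt_of_le_of_lt (le_max_left _ _) hz)
  have hAn : AA (n - 1) a (n - 1) = (-1) ^ (n - 1) := by
    rw [AA, Finset.sum_eq_single 0]
    · exact hac
    · intro m _ hm
      exact ha0 m hm
    · intro h0
      exfalso
      apply h0
      rw [Finset.mem_Icc]
      omega
  -- the formula
  have hq : (qn n : ℂ) = -2 * (Complex.I / (2 * Real.pi)) ^ n *
      ∑ l ∈ Finset.range n, (AA (n - 1) a l : ℂ) *
        ((2 * Real.pi * Complex.I) ^ (l + 1) / (l.factorial : ℂ)) := by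
    rw [hF n hn, ← integral_pf hI n (by omega) a]
    congr 1
    refine circleIntegral.integral_congr (Nat.cast_nonneg n) fun z hz => ?_
    rw [mem_sphere_zero_iff_norm] at hz
    have h1 : ((n - 1 : ℕ) : ℝ) < ‖z‖ := by
      rw [hz]; exact_mod_cast Nat.sub_lt (by omega) one_pos
    rw [← hpf z h1]
    congr 1
    rw [yk, yz, th, mul_assoc]
    obtain ⟨k, rfl⟩ : ∃ k, n = k + 1 := ⟨n - 1, by omega⟩
    rw [PowerSeries.coeff_succ_X_mul, Nat.add_sub_cancel]
  -- the real numbers `R l`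
  set R : ℕ → ℝ := fun l => -2 * (AA (n - 1) a l : ℝ) / (l.factorial : ℝ) /
    (2 * Real.pi) ^ (n - 1 - l) with hR
  have hpi : (2 * Real.pi : ℝ) ≠ 0 := by positivity
  have hpiC : (2 * (Real.pi : ℂ)) ≠ 0 := by exact_mod_cast hpi
  have hq2 : (qn n : ℂ) = ∑ l ∈ Finset.range n, Complex.I ^ (n + l + 1) * (R l : ℂ) := by
    rw [hq, Finset.mul_sum]
    refine Finset.sum_congr rfl fun l hl => ?_
    have hl' := Finset.mem_range.mp hl
    have e1 : (2 * (Real.pi : ℂ)) ^ n = (2 * (Real.pi : ℂ)) ^ (l + 1) *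
        (2 * (Real.pi : ℂ)) ^ (n - 1 - l) := by
      rw [← pow_add]; congr 1; omega
    have e2 : (l.factorial : ℂ) ≠ 0 := by exact_mod_cast l.factorial_ne_zero
    rw [hR]
    push_cast
    rw [div_pow, e1, mul_pow, show n + l + 1 = n + (l + 1) by ring, pow_add Complex.I n (l + 1)]
    field_simp
    ring
  have hq3 : qn n = ∑ l ∈ Finset.range n, (Complex.I ^ (n + l + 1)).re * R l := by
    have := congrArg Complex.re hq2
    rw [Complex.ofReal_re, Complex.re_sum] at this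
    rw [this]
    refine Finset.sum_congr rfl fun l _ => ?_
    rw [Complex.re_mul_ofReal]
  rw [← Finset.sum_range_reflect] at hq3
  -- the polynomial
  set c : ℕ → ℚ := fun j => -2 * AA (n - 1) a (n - 1 - 2 * j) / ((n - 1 - 2 * j).factorial : ℚ) *
    (-1) ^ (n - j) / 4 ^ j with hc
  refine ⟨∑ j ∈ Finset.range (n / 2), Polynomial.monomial j (c j), ?_, ?_, ?_⟩
  · apply Polynomial.natDegree_sum_le_of_forall_le
    intro j hj
    refine (Polynomial.natDegree_monomial_le _).trans ?_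
    have := Finset.mem_range.mp hj
    omega
  · rw [Polynomial.finsetSum_coeff, Finset.sum_eq_single 0]
    · rw [Polynomial.coeff_monomial, if_pos rfl, hc]
      simp only [mul_zero, Nat.sub_zero, pow_zero, div_one]
      rw [hAn]
      have h1 : (-1 : ℚ) ^ (n - 1) * (-1) ^ n = -1 := by
        rw [← pow_add, show n - 1 + n = 2 * (n - 1) + 1 by omega, pow_succ, pow_mul]
        norm_num
      have h2 : ((n - 1).factorial : ℚ) ≠ 0 := by exact_mod_cast (n - 1).factorial_ne_zero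
      field_simp
      linear_combination (-1) * h1
    · intro j _ hj
      rw [Polynomial.coeff_monomial, if_neg hj]
    · intro h0
      exfalso
      apply h0
      rw [Finset.mem_range]
      omega
  · rw [hq3, map_sum]
    have h1 : ∀ j ∈ Finset.range (n / 2), Polynomial.aeval (1 / Real.pi ^ 2 : ℝ)
        (Polynomial.monomial j (c j)) = (Complex.I ^ (n + (n - 1 - 2 * j) + 1)).re *
          R (n - 1 - 2 * j) := by
      intro j hj
      have hj' := Finset.mem_range.mp hj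
      rw [Polynomial.aeval_monomial, show n + (n - 1 - 2 * j) + 1 = 2 * (n - j) by omega,
        pow_I_even, Complex.ofReal_re, hR, hc]
      simp only
      rw [show n - 1 - (n - 1 - 2 * j) = 2 * j by omega, eq_ratCast, pow_mul (2 * Real.pi) 2 j,
        mul_pow 2 Real.pi 2, mul_pow ((2 : ℝ) ^ 2)]
      have h2 : ((n - 1 - 2 * j).factorial : ℝ) ≠ 0 := by
        exact_mod_cast (n - 1 - 2 * j).factorial_ne_zero
      have h3 : (Real.pi ^ 2) ^ j ≠ 0 := by positivity
      push_cast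
      rw [div_pow, one_pow]
      norm_num
      field_simp
    rw [Finset.sum_congr rfl h1]
    symm
    rw [← Finset.sum_image (s := Finset.range (n / 2)) (g := fun j => 2 * j)
      (f := fun s => (Complex.I ^ (n + (n - 1 - s) + 1)).re * R (n - 1 - s))
      (fun x _ y _ hxy => by simpa using hxy)]
    apply Finset.sum_subset
    · intro s hs
      obtain ⟨j, hj, rfl⟩ := Finset.mem_image.mp hs
      have := Finset.mem_range.mp hj
      exact Finset.mem_range.mpr (by omega)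
    · intro s hs hs'
      have hs1 := Finset.mem_range.mp hs
      rcases Nat.even_or_odd' s with ⟨j, rfl | rfl⟩
      · have h5 : 2 * j = n - 1 := by
          by_contra h6
          apply hs'
          exact Finset.mem_image.mpr ⟨j, Finset.mem_range.mpr (by omega), rfl⟩
        have h7 : R (n - 1 - 2 * j) = 0 := by
          rw [hR, h5]
          simp only [Nat.sub_self]
          rw [hA0]
          simp
        rw [h7, mul_zero]
      · rw [show n + (n - 1 - (2 * j + 1)) + 1 = 2 * (n - j - 1) + 1 by omega, pow_succ,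
          pow_I_even, Complex.re_ofReal_mul, Complex.I_re, mul_zero, zero_mul]

end Pool.Agent.Helper2.DISC
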