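import Pool.Agent.Helper98.DISC.GoalsF
import Pool.Agent.Helper2.DISC.RATG

/-!
# Project DISC (MP_105b7b_pr), packet EXPF
-/

open MeasureTheory Set Filter Topology

noncomputable section

namespace Pool.Agent.Helper2.DISC
open Pool.Agent.Helper98.DISC

theorem yF_eq (n : ℕ) (hn : 1 ≤ n) (z : ℂ) : yk n z = yF ℂ n z := by
  rw [yk, yz, th, mul_assoc]
  obtain ⟨k, rfl⟩ : ∃ k, n = k + 1 := ⟨n - 1, by omega⟩
  rw [PowerSeries.coeff_succ_X_mul, yF, Nat.add_sub_cancel]
  rfl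

theorem real_sum (n : ℕ) (hn : 3 ≤ n) (A : ℕ → ℚ) (hA0 : A 0 = 0) (q : ℝ)
    (hq : (q : ℂ) = -2 * (Complex.I / (2 * Real.pi)) ^ n *
      ∑ l ∈ Finset.range n, (A l : ℂ) *
        ((2 * Real.pi * Complex.I) ^ (l + 1) / (l.factorial : ℂ))) :
    q = ∑ j ∈ Finset.range (n / 2),
      2 * (-1) ^ (n + 1 + j) / (4 ^ j * ((n - 1 - 2 * j).factorial : ℝ)) *
        (A (n - 1 - 2 * j) : ℝ) / Real.pi ^ (2 * j) := by
  set R : ℕ → ℝ := fun l => -2 * (A l : ℝ) / (l.factorial : ℝ) /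
    (2 * Real.pi) ^ (n - 1 - l) with hR
  have hpi : (2 * Real.pi : ℝ) ≠ 0 := by positivity
  have hpiC : (2 * (Real.pi : ℂ)) ≠ 0 := by exact_mod_cast hpi
  have hq2 : (q : ℂ) = ∑ l ∈ Finset.range n, Complex.I ^ (n + l + 1) * (R l : ℂ) := by
    rw [hq, Finset.mul_sum]
    refine Finset.sum_congr rfl fun l hl => ?_
    have hl' := Finset.mem_range.mp hl
    have e1 : (2 * (Real.pi : ℂ)) ^ n = (2 * (Real.pi : ℂ)) ^ (l + 1) *
        (2 * (Real.pi : ℂ)) ^ (n - 1 - l) := by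
      rw [← pow_add]; congr 1; omega
    have e2 : (l.factorial : ℂ) ≠ 0 := by exact_mod_cast l.factorial_ne_zero
    rw [hR]
    push_cast
    rw [div_pow, e1, mul_pow, show n + l + 1 = n + (l + 1) by ring, pow_add Complex.I n (l + 1)]
    field_simp
    ring
  have hq3 : q = ∑ l ∈ Finset.range n, (Complex.I ^ (n + l + 1)).re * R l := by
    have := congrArg Complex.re hq2
    rw [Complex.ofReal_re, Complex.re_sum] at this
    rw [this]
    refine Finset.sum_congr rfl fun l _ => ?_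
    rw [Complex.re_mul_ofReal]
  rw [← Finset.sum_range_reflect] at hq3
  rw [hq3]
  have h1 : ∀ j ∈ Finset.range (n / 2),
      2 * (-1) ^ (n + 1 + j) / (4 ^ j * ((n - 1 - 2 * j).factorial : ℝ)) *
        (A (n - 1 - 2 * j) : ℝ) / Real.pi ^ (2 * j) =
        (Complex.I ^ (n + (n - 1 - 2 * j) + 1)).re * R (n - 1 - 2 * j) := by
    intro j hj
    have hj' := Finset.mem_range.mp hj
    rw [show n + (n - 1 - 2 * j) + 1 = 2 * (n - j) by omega,
      pow_I_even, Complex.ofReal_re, hR]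
    simp only
    have h4 : (-1 : ℝ) ^ (n + 1 + j) = - (-1) ^ (n - j) := by
      rw [show n + 1 + j = (n - j) + 2 * j + 1 by omega, pow_succ, pow_add, pow_mul]
      norm_num
    rw [show n - 1 - (n - 1 - 2 * j) = 2 * j by omega, h4, pow_mul (2 * Real.pi) 2 j,
      mul_pow 2 Real.pi 2, mul_pow ((2 : ℝ) ^ 2), pow_mul Real.pi 2 j]
    have h2 : ((n - 1 - 2 * j).factorial : ℝ) ≠ 0 := by
      exact_mod_cast (n - 1 - 2 * j).factorial_ne_zero
    have h3 : (Real.pi ^ 2) ^ j ≠ 0 := by positivity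
    norm_num
    field_simp
  rw [Finset.sum_congr rfl h1]
  symm
  rw [← Finset.sum_image (s := Finset.range (n / 2)) (g := fun j => 2 * j)
    (f := fun s => (Complex.I ^ (n + (n - 1 - s) + 1)).re * R (n - 1 - s))
    (fun x _ y _ hxy => by simpa using hxy)]
  apply Finset.sum_subset
  · intro s hs
    obtain ⟨j, hj, rfl⟩ := Finset.mem_image.mp hs
    have := Finset.mem_range.mp hj
    exact Finset.mem_range.mpr (by omega)
  · intro s hs hs'
    have hs1 := Finset.mem_range.mp hs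
    rcases Nat.even_or_odd' s with ⟨j, rfl | rfl⟩
    · have h5 : 2 * j = n - 1 := by
        by_contra h6
        apply hs'
        exact Finset.mem_image.mpr ⟨j, Finset.mem_range.mpr (by omega), rfl⟩
      have h7 : R (n - 1 - 2 * j) = 0 := by
        rw [hR, h5]
        simp only [Nat.sub_self]
        rw [hA0]
        simp
      rw [h7, mul_zero]
    · rw [show n + (n - 1 - (2 * j + 1)) + 1 = 2 * (n - j - 1) + 1 by omega, pow_succ,
        pow_I_even, Complex.re_ofReal_mul, Complex.I_re, mul_zero, zero_mul]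

theorem EXPF : S_EXPF := by
  intro hG hL hI hD hF n _ hn
  obtain ⟨a, ha⟩ := hG n (by omega)
  obtain ⟨C, r, hC⟩ := hD n (by omega)
  have hpf : ∀ z : ℂ, ((n - 1 : ℕ) : ℝ) < ‖z‖ → yk n z = pf (n - 1) n a z := by
    intro z hz
    rw [yF_eq n (by omega)]
    exact ha ℂ z (fun m hm => sub_ne_zero.mp (sub_ne hz hm))
  have hA : ∀ l, l < n → Anl n l = AA (n - 1) a l := fun l hl => hL n (by omega) a ha l hl
  have hA0 : Anl n 0 = 0 := by
    rw [hA 0 (by omega)]
    refine AA_zero n (by omega) a ⟨C, max r (n - 1 : ℕ), fun z hz => ?_⟩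
    rw [← hpf z (lt_of_le_of_lt (le_max_right _ _) hz)]
    exact hC z (lt_of_le_of_lt (le_max_left _ _) hz)
  apply real_sum n hn (Anl n) hA0
  have e1 : ∑ l ∈ Finset.range n, (Anl n l : ℂ) *
        ((2 * Real.pi * Complex.I) ^ (l + 1) / (l.factorial : ℂ)) =
      ∑ l ∈ Finset.range n, (AA (n - 1) a l : ℂ) *
        ((2 * Real.pi * Complex.I) ^ (l + 1) / (l.factorial : ℂ)) := by
    refine Finset.sum_congr rfl fun l hl => ?_
    rw [hA l (Finset.mem_range.mp hl)]
  rw [e1, hF n hn, ← integral_pf hI n (by omega) a]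
  congr 1
  refine circleIntegral.integral_congr (Nat.cast_nonneg n) fun z hz => ?_
  rw [mem_sphere_zero_iff_norm] at hz
  have h1 : ((n - 1 : ℕ) : ℝ) < ‖z‖ := by
    rw [hz]; exact_mod_cast Nat.sub_lt (by omega) one_pos
  rw [← hpf z h1]
  congr 1
  rw [yk, yz, th, mul_assoc]
  obtain ⟨k, rfl⟩ : ∃ k, n = k + 1 := ⟨n - 1, by omega⟩
  rw [PowerSeries.coeff_succ_X_mul, Nat.add_sub_cancel]

end Pool.Agent.Helper2.DISC
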