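import Pool.Agent.Helper98.DISC.GoalsA

/-!
# Project DISC (MP_105b7b_pr), packet LC: the coefficients of the Wronskians
-/

open MeasureTheory Set Filter Topology
open scoped Nat

noncomputable section

namespace Pool.Agent.Helper2.DISC
open Pool.Agent.Helper98.DISC

theorem th_iter (w : ℕ → ℂ) (n : ℕ) :
    th^[n] (PowerSeries.mk w) = PowerSeries.mk fun l => (l : ℂ) ^ n * w l := by
  induction n with
  | zero => ext l; simp
  | succ n ih =>
    rw [Function.iterate_succ_apply', ih]
    ext l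
    rw [th]
    cases l with
    | zero => simp
    | succ l =>
      rw [mul_comm, PowerSeries.coeff_succ_mul_X, PowerSeries.coeff_derivative,
        PowerSeries.coeff_mk, PowerSeries.coeff_mk]
      push_cast
      ring

theorem coeff_prod_fin {N : ℕ} (m : ℕ) (f : Fin N → PowerSeries ℂ) :
    PowerSeries.coeff m (∏ i, f i) =
      ∑ l ∈ (Finset.univ : Finset (Fin N → Fin (m + 1))).filter (fun l => ∑ i, (l i : ℕ) = m),
        ∏ i, PowerSeries.coeff (l i : ℕ) (f i) := by
  classical
  rw [PowerSeries.coeff_prod]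
  have key : ∀ l ∈ Finset.finsuppAntidiag (Finset.univ : Finset (Fin N)) m, ∀ i,
      ((Fin.ofNat (m + 1) (l i) : Fin (m + 1)) : ℕ) = l i := by
    intro l hl i
    rw [Finset.mem_finsuppAntidiag] at hl
    have : l i ≤ m := by
      rw [← hl.1]
      exact Finset.single_le_sum (f := fun i => l i) (fun _ _ => Nat.zero_le _) (Finset.mem_univ i)
    simp only [Fin.ofNat]
    exact Nat.mod_eq_of_lt (by omega)
  refine Finset.sum_bij' (fun l _ i => Fin.ofNat (m + 1) (l i))
    (fun l _ => Finsupp.equivFunOnFinite.symm (fun i => (l i : ℕ))) ?_ ?_ ?_ ?_ ?_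
  · intro l hl
    rw [Finset.mem_filter]
    refine ⟨Finset.mem_univ _, ?_⟩
    rw [Finset.sum_congr rfl (fun i _ => key l hl i)]
    exact (Finset.mem_finsuppAntidiag.mp hl).1
  · intro l hl
    rw [Finset.mem_finsuppAntidiag]
    exact ⟨(Finset.mem_filter.mp hl).2, Finset.subset_univ _⟩
  · intro l hl
    ext i
    exact key l hl i
  · intro l hl
    funext i
    apply Fin.ext
    simp only [Fin.ofNat, Finsupp.equivFunOnFinite_symm_apply_apply]
    exact Nat.mod_eq_of_lt (l i).2
  · intro l hl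
    refine Finset.prod_congr rfl fun i _ => ?_
    rw [key l hl i]

theorem exists_perm {N M : ℕ} (f : Fin N → Fin M) (hf : Function.Injective f) :
    ∃ τ : Equiv.Perm (Fin N), StrictAnti (f ∘ τ) := by
  have h1 := Tuple.monotone_sort f
  refine ⟨Fin.revPerm.trans (Tuple.sort f), ?_⟩
  intro a b hab
  have h2 : (Fin.rev b) < Fin.rev a := Fin.rev_lt_rev.mpr hab
  have h3 := h1 h2.le
  refine lt_of_le_of_ne h3 ?_
  intro h4
  have h5 := (Tuple.sort f).injective (hf h4)
  exact h2.ne h5

theorem sum_inj {N M : ℕ} (G : (Fin N → Fin M) → ℂ)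
    (hG : ∀ l, ¬ Function.Injective l → G l = 0) :
    ∑ l, G l = ∑ l ∈ (Finset.univ : Finset (Fin N → Fin M)).filter (fun l => StrictAnti l),
      ∑ τ : Equiv.Perm (Fin N), G (l ∘ τ) := by
  classical
  have e1 : ∑ l, G l = ∑ l ∈ (Finset.univ : Finset (Fin N → Fin M)).filter
      (fun l => Function.Injective l), G l := by
    rw [Finset.sum_filter]
    refine Finset.sum_congr rfl fun l _ => ?_
    split_ifs with h
    · rfl
    · exact hG l h
  rw [e1, ← Finset.sum_product']
  symm
  refine Finset.sum_bij (fun p _ => p.1 ∘ p.2) ?_ ?_ ?_ ?_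
  · rintro ⟨l, τ⟩ h
    rw [Finset.mem_product, Finset.mem_filter] at h
    rw [Finset.mem_filter]
    exact ⟨Finset.mem_univ _, h.1.2.injective.comp τ.injective⟩
  · rintro ⟨l, τ⟩ h ⟨l', τ'⟩ h' he
    rw [Finset.mem_product, Finset.mem_filter] at h h'
    have hl : StrictAnti l := h.1.2
    have hl' : StrictAnti l' := h'.1.2
    simp only at he
    have hr : Set.range l = Set.range l' := by
      have := congrArg Set.range he
      rwa [τ.surjective.range_comp, τ'.surjective.range_comp] at this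
    have h1 : StrictMono (l ∘ Fin.rev) := fun a b hab => hl (Fin.rev_lt_rev.mpr hab)
    have h2 : StrictMono (l' ∘ Fin.rev) := fun a b hab => hl' (Fin.rev_lt_rev.mpr hab)
    have h3 : Set.range (l ∘ Fin.rev) = Set.range (l' ∘ Fin.rev) := by
      rw [Fin.rev_surjective.range_comp, Fin.rev_surjective.range_comp, hr]
    have h4 : l ∘ Fin.rev = l' ∘ Fin.rev := (StrictMono.range_inj h1 h2).mp h3
    have h5 : l = l' := by
      funext i
      have := congrFun h4 (Fin.rev i)
      simpa using this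
    subst h5
    have h6 : τ = τ' := by
      ext i
      have := hl.injective (congrFun he i)
      rw [this]
    rw [h6]
  · intro f hf
    obtain ⟨τ, hτ⟩ := exists_perm f (Finset.mem_filter.mp hf).2
    refine ⟨(f ∘ τ, τ.symm), ?_, ?_⟩
    · rw [Finset.mem_product, Finset.mem_filter]
      exact ⟨⟨Finset.mem_univ _, hτ⟩, Finset.mem_univ _⟩
    · funext i
      simp
  · rintro ⟨l, τ⟩ h
    rfl

theorem LC : S_LC := by
  classical
  intro w N m
  set V : (Fin N → Fin (m + 1)) → ℂ := fun l => (Matrix.vandermonde fun i => ((l i : ℕ) : ℂ)).det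
    with hV
  -- first expansion
  have e1 : PowerSeries.coeff m (Wd (PowerSeries.mk w) N) =
      ∑ l ∈ (Finset.univ : Finset (Fin N → Fin (m + 1))).filter (fun l => ∑ i, (l i : ℕ) = m),
        (∏ i, w (l i : ℕ)) * (∏ i, (((l i : ℕ) : ℂ)) ^ (i : ℕ)) * V l := by
    rw [Wd, Matrix.det_apply, map_sum]
    have h1 : ∀ σ : Equiv.Perm (Fin N), PowerSeries.coeff m (Equiv.Perm.sign σ •
        ∏ i, (Matrix.of fun i j : Fin N => th^[(i : ℕ) + j] (PowerSeries.mk w)) (σ i) i) =
        ∑ l ∈ (Finset.univ : Finset (Fin N → Fin (m + 1))).filter (fun l => ∑ i, (l i : ℕ) = m),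
          (∏ i, w (l i : ℕ)) * (∏ i, (((l i : ℕ) : ℂ)) ^ (i : ℕ)) *
            (Equiv.Perm.sign σ • ∏ i, ((l i : ℕ) : ℂ) ^ (σ i : ℕ)) := by
      intro σ
      have h2 : PowerSeries.coeff m (Equiv.Perm.sign σ •
        ∏ i, (Matrix.of fun i j : Fin N => th^[(i : ℕ) + j] (PowerSeries.mk w)) (σ i) i) =
        Equiv.Perm.sign σ • PowerSeries.coeff m
          (∏ i, (Matrix.of fun i j : Fin N => th^[(i : ℕ) + j] (PowerSeries.mk w)) (σ i) i) := by
        rcases Int.units_eq_one_or (Equiv.Perm.sign σ) with h | h <;> rw [h] <;> simp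
      rw [h2, coeff_prod_fin, Finset.smul_sum]
      refine Finset.sum_congr rfl fun l _ => ?_
      rw [mul_smul_comm]
      congr 1
      rw [← Finset.prod_mul_distrib, ← Finset.prod_mul_distrib]
      refine Finset.prod_congr rfl fun i _ => ?_
      rw [Matrix.of_apply, th_iter, PowerSeries.coeff_mk, pow_add]
      ring
    rw [Finset.sum_congr rfl (fun σ _ => h1 σ), Finset.sum_comm]
    refine Finset.sum_congr rfl fun l _ => ?_
    rw [← Finset.mul_sum]
    congr 1
    rw [hV]
    simp only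
    rw [← Matrix.det_transpose, Matrix.det_apply]
    rfl
  rw [e1, Finset.sum_filter, sum_inj]
  · -- second expansion
    conv_rhs => rw [← Finset.filter_filter, Finset.sum_filter]
    refine Finset.sum_congr rfl fun l _ => ?_
    have hs : ∀ τ : Equiv.Perm (Fin N), ∑ i, ((((l ∘ τ) i : Fin (m + 1)) : ℕ)) = ∑ i, (l i : ℕ) :=
      fun τ => Equiv.sum_comp τ (fun i => ((l i : Fin (m + 1)) : ℕ))
    by_cases hm : ∑ i, (l i : ℕ) = m
    · rw [if_pos hm]
      have h3 : ∀ τ : Equiv.Perm (Fin N), (if ∑ i, ((((l ∘ τ) i : Fin (m + 1)) : ℕ)) = m then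
          (∏ i, w ((l ∘ τ) i : ℕ)) * (∏ i, ((((l ∘ τ) i : ℕ) : ℂ)) ^ (i : ℕ)) * V (l ∘ τ) else 0) =
          (∏ i, w (l i : ℕ)) * V l *
            (Equiv.Perm.sign τ • ∏ i, (Matrix.vandermonde fun i => ((l i : ℕ) : ℂ)) (τ i) i) := by
        intro τ
        rw [if_pos ((hs τ).trans hm)]
        have h4 : ∏ i, w ((l ∘ τ) i : ℕ) = ∏ i, w (l i : ℕ) :=
          Equiv.prod_comp τ (fun i => w (l i : ℕ))
        have h5 : V (l ∘ τ) = ((Equiv.Perm.sign τ : ℤ) : ℂ) * V l := by
          rw [hV]
          exact Matrix.det_permute τ (Matrix.vandermonde fun i => ((l i : ℕ) : ℂ))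
        have h6 : (Equiv.Perm.sign τ • ∏ i, (Matrix.vandermonde fun i => ((l i : ℕ) : ℂ)) (τ i) i) =
            ((Equiv.Perm.sign τ : ℤ) : ℂ) * ∏ i, ((((l ∘ τ) i : ℕ) : ℂ)) ^ (i : ℕ) := by
          rcases Int.units_eq_one_or (Equiv.Perm.sign τ) with h | h <;> rw [h] <;>
            simp [Matrix.vandermonde_apply]
        rw [h4, h5, h6]
        ring
      rw [Finset.sum_congr rfl (fun τ _ => h3 τ), ← Finset.mul_sum, ← Matrix.det_apply]
      have h7 : V l ^ 2 = (∏ i, ∏ j ∈ Finset.Ioi i, (((l i : ℕ) : ℂ) - (l j : ℕ))) ^ 2 := by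
        rw [hV]
        simp only
        rw [Matrix.det_vandermonde, ← Finset.prod_pow, ← Finset.prod_pow]
        refine Finset.prod_congr rfl fun i _ => ?_
        rw [← Finset.prod_pow, ← Finset.prod_pow]
        refine Finset.prod_congr rfl fun j _ => ?_
        ring
      rw [← h7, hV]
      ring
    · rw [if_neg hm]
      refine Finset.sum_eq_zero fun τ _ => ?_
      rw [if_neg]
      rw [hs τ]
      exact hm
  · intro l hl
    have hV0 : V l = 0 := by
      rw [hV]
      simp only
      rw [Matrix.det_vandermonde_eq_zero_iff]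
      rw [Function.Injective] at hl
      push Not at hl
      obtain ⟨a, b, hab, hne⟩ := hl
      exact ⟨a, b, by rw [hab], hne⟩
    rw [hV0, mul_zero, ite_self]

end Pool.Agent.Helper2.DISC
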