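import Pool.Agent.Helper98.DISC.GoalsD

/-!
# Project DISC (MP_105b7b_pr), packet PV: polar coordinates
-/

open MeasureTheory Set Filter Topology
open scoped ENNReal

noncomputable section

namespace Pool.Agent.Helper2.DISC
open Pool.Agent.Helper98.DISC

theorem arg_mem {z : ℂ} (h : 0 < z.im) : Complex.arg z ∈ Ioo 0 Real.pi := by
  have h1 : 0 ≤ Complex.arg z := Complex.arg_nonneg_iff.mpr h.le
  have h2 : Complex.arg z ≤ Real.pi := Complex.arg_le_pi z
  refine ⟨lt_of_le_of_ne h1 ?_, lt_of_le_of_ne h2 ?_⟩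
  · intro h3
    have := (Complex.arg_eq_zero_iff.mp h3.symm).2
    linarith
  · intro h3
    have := (Complex.arg_eq_pi_iff.mp h3).2
    linarith

theorem cr_eq (w : ℂ) : cr 1 w 0 = w.im := by simp [cr]

theorem ps_im {w : ℂ} (h : 0 < w.im) : 0 < ((0 - 1 : ℂ) / (w - 1)).im := by
  have h0 : w - 1 ≠ 0 := by
    intro h1
    have := congrArg Complex.im h1
    simp at this
    linarith
  have h2 : ((0 - 1 : ℂ) / (w - 1)).im = w.im / Complex.normSq (w - 1) := by
    rw [Complex.div_im]; simp; ring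
  rw [h2]
  exact div_pos h (Complex.normSq_pos.mpr h0)

/-- the point with polar coordinates `r`, `α` -/
def pc (r α : ℝ) : ℂ := r * (Real.cos α + Real.sin α * Complex.I)

theorem pc_re (r α : ℝ) : (pc r α).re = r * Real.cos α := by
  simp [pc, ← Complex.ofReal_cos, ← Complex.ofReal_sin]

theorem pc_im (r α : ℝ) : (pc r α).im = r * Real.sin α := by
  simp [pc, ← Complex.ofReal_cos, ← Complex.ofReal_sin]

theorem dq_pc (φ r α : ℝ) :
    dq 1 0 φ (pc r α) = r * Real.sin (α - φ) + r ^ 2 * Real.sin φ := by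
  have e1 : Complex.exp (-(φ * Complex.I)) = (Real.cos φ : ℂ) - Real.sin φ * Complex.I := by
    rw [show -((φ : ℂ) * Complex.I) = ((-φ : ℝ) : ℂ) * Complex.I by push_cast; ring,
      Complex.exp_mul_I, ← Complex.ofReal_cos, ← Complex.ofReal_sin, Real.cos_neg, Real.sin_neg]
    push_cast
    ring
  have e2 : ∀ z w : ℂ, (z * (starRingEnd ℂ) w * ((Real.cos φ : ℂ) - Real.sin φ * Complex.I)).im =
      (z.im * w.re - z.re * w.im) * Real.cos φ - (z.re * w.re + z.im * w.im) * Real.sin φ := by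
    intro z w
    simp [Complex.mul_im, Complex.mul_re, ← Complex.ofReal_cos, ← Complex.ofReal_sin]
    ring
  rw [dq, e1, e2, Real.sin_sub]
  simp only [sub_zero, Complex.sub_re, Complex.sub_im, Complex.one_re, Complex.one_im, pc_re, pc_im]
  have := Real.sin_sq_add_cos_sq α
  linear_combination (-(r ^ 2 * Real.sin φ)) * 0 + (r ^ 2 * Real.sin φ) * this

/-- the substitution -/
def rho (α ψ : ℝ) : ℝ := Real.sin ψ / Real.sin (α + ψ)

theorem one_sub_pc {α ψ : ℝ} (h : Real.sin (α + ψ) ≠ 0) :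
    1 - pc (rho α ψ) α =
      ((Real.sin α / Real.sin (α + ψ) : ℝ) : ℂ) * (Real.cos ψ - Real.sin ψ * Complex.I) := by
  apply Complex.ext
  · rw [Complex.sub_re, pc_re, rho]
    have : (((Real.sin α / Real.sin (α + ψ) : ℝ) : ℂ) *
        (Real.cos ψ - Real.sin ψ * Complex.I)).re = Real.sin α / Real.sin (α + ψ) * Real.cos ψ := by
      rw [Complex.re_ofReal_mul]
      simp [← Complex.ofReal_cos, ← Complex.ofReal_sin]
    rw [this]
    field_simp
    rw [Complex.one_re, Real.sin_add]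
    ring
  · rw [Complex.sub_im, pc_im, rho]
    have : (((Real.sin α / Real.sin (α + ψ) : ℝ) : ℂ) *
        (Real.cos ψ - Real.sin ψ * Complex.I)).im = -(Real.sin α / Real.sin (α + ψ) * Real.sin ψ) := by
      rw [Complex.im_ofReal_mul]
      simp [← Complex.ofReal_cos, ← Complex.ofReal_sin]
    rw [this, Complex.one_im]
    ring

theorem norm_cs (ψ : ℝ) : ‖(Real.cos ψ : ℂ) - Real.sin ψ * Complex.I‖ = 1 := by
  have : (Real.cos ψ : ℂ) - Real.sin ψ * Complex.I = Complex.exp (((-ψ : ℝ) : ℂ) * Complex.I) := by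
    rw [Complex.exp_mul_I, ← Complex.ofReal_cos, ← Complex.ofReal_sin, Real.cos_neg, Real.sin_neg]
    push_cast
    ring
  rw [this, Complex.norm_exp_ofReal_mul_I]

theorem norm_pc {r : ℝ} (hr : 0 ≤ r) (α : ℝ) : ‖pc r α‖ = r := by
  have : pc r α = r * Complex.exp ((α : ℂ) * Complex.I) := by
    rw [pc, Complex.exp_mul_I, ← Complex.ofReal_cos, ← Complex.ofReal_sin]
  rw [this, norm_mul, Complex.norm_exp_ofReal_mul_I, mul_one, Complex.norm_real,
    Real.norm_of_nonneg hr]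

theorem arg_pc {r α : ℝ} (hr : 0 < r) (hα : α ∈ Ioc (-Real.pi) Real.pi) :
    Complex.arg (pc r α) = α := by
  rw [pc, Complex.ofReal_cos, Complex.ofReal_sin]
  exact Complex.arg_mul_cos_add_sin_mul_I hr hα

theorem ps_pc {α ψ : ℝ} (h : 0 < Real.sin (α + ψ)) (hα : 0 < Real.sin α)
    (hψ : ψ ∈ Ioc (-Real.pi) Real.pi) :
    Complex.arg ((0 - 1 : ℂ) / (pc (rho α ψ) α - 1)) = ψ := by
  have h1 := one_sub_pc (α := α) (ψ := ψ) h.ne'
  have h2 : (0 - 1 : ℂ) / (pc (rho α ψ) α - 1) = pc (Real.sin (α + ψ) / Real.sin α) ψ := by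
    have h3 : (0 - 1 : ℂ) / (pc (rho α ψ) α - 1) = 1 / (1 - pc (rho α ψ) α) := by
      rw [← neg_sub 1 (pc (rho α ψ) α), zero_sub, neg_div_neg_eq]
    rw [h3, h1]
    have hs1 : ((Real.sin α : ℝ) : ℂ) ≠ 0 := by exact_mod_cast hα.ne'
    have hs2 : ((Real.sin (α + ψ) : ℝ) : ℂ) ≠ 0 := by exact_mod_cast h.ne'
    have hs3 : ((Real.cos ψ : ℂ) - Real.sin ψ * Complex.I) ≠ 0 := by
      rw [← norm_ne_zero_iff, norm_cs]; exact one_ne_zero
    have h4 : ((Real.cos ψ : ℂ) - Real.sin ψ * Complex.I) *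
        ((Real.cos ψ : ℂ) + Real.sin ψ * Complex.I) = 1 := by
      have h5 : ((Real.sin ψ : ℝ) : ℂ) ^ 2 + ((Real.cos ψ : ℝ) : ℂ) ^ 2 = 1 := by
        exact_mod_cast Real.sin_sq_add_cos_sq ψ
      have h6 := Complex.I_sq
      linear_combination h5 - ((Real.sin ψ : ℝ) : ℂ) ^ 2 * h6
    rw [pc, one_div, mul_inv, inv_eq_of_mul_eq_one_right h4]
    push_cast
    rw [inv_div]
  rw [h2]
  exact arg_pc (div_pos h hα) hψ

theorem rho_deriv {α ψ : ℝ} (h : Real.sin (α + ψ) ≠ 0) :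
    HasDerivAt (rho α) (Real.sin α / Real.sin (α + ψ) ^ 2) ψ := by
  have h1 : HasDerivAt (fun x : ℝ => Real.sin (α + x)) (Real.cos (α + ψ)) ψ := by
    have := (Real.hasDerivAt_sin (α + ψ)).comp ψ ((hasDerivAt_id ψ).const_add α)
    rw [mul_one] at this
    exact this
  have h2 := (Real.hasDerivAt_sin ψ).div h1 h
  refine h2.congr_deriv ?_
  congr 1
  have : Real.sin α = Real.sin ((α + ψ) - ψ) := by ring_nf
  rw [this, Real.sin_sub (α + ψ) ψ]
  ring

theorem rho_image {φ α : ℝ} (hφ : φ < Real.pi) (hα : α ∈ Ioo 0 φ) :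
    rho α '' Ioo 0 (φ - α) = Ioo 0 (Real.sin (φ - α) / Real.sin φ) ∧ InjOn (rho α) (Ioo 0 (φ - α)) := by
  obtain ⟨h1, h2⟩ := hα
  have hpos : ∀ ψ ∈ Icc 0 (φ - α), 0 < Real.sin (α + ψ) := by
    intro ψ hψ
    exact Real.sin_pos_of_pos_of_lt_pi (by linarith [hψ.1]) (by linarith [hψ.2])
  have hsα : 0 < Real.sin α := Real.sin_pos_of_pos_of_lt_pi h1 (by linarith)
  have hcont : ContinuousOn (rho α) (Icc 0 (φ - α)) := fun ψ hψ =>
    (rho_deriv (hpos ψ hψ).ne').continuousAt.continuousWithinAt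
  have hmono : StrictMonoOn (rho α) (Icc 0 (φ - α)) := by
    refine strictMonoOn_of_deriv_pos (convex_Icc _ _) hcont ?_
    intro ψ hψ
    have hψ' := interior_subset hψ
    rw [(rho_deriv (hpos ψ hψ').ne').deriv]
    exact div_pos hsα (pow_pos (hpos ψ hψ') 2)
  have e0 : rho α 0 = 0 := by simp [rho]
  have e1 : rho α (φ - α) = Real.sin (φ - α) / Real.sin φ := by
    rw [rho]; congr 2; ring
  have hle : 0 ≤ φ - α := by linarith
  refine ⟨?_, (hmono.injOn).mono Ioo_subset_Icc_self⟩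
  apply Subset.antisymm
  · rintro _ ⟨ψ, hψ, rfl⟩
    have hψ' := Ioo_subset_Icc_self hψ
    refine ⟨?_, ?_⟩
    · rw [← e0]; exact hmono (left_mem_Icc.mpr hle) hψ' hψ.1
    · rw [← e1]; exact hmono hψ' (right_mem_Icc.mpr hle) hψ.2
  · have := intermediate_value_Ioo hle hcont
    rwa [e0, e1] at this

theorem pc_mem {φ r α : ℝ} (hφ : φ ∈ Ioo 0 Real.pi) (hr : 0 < r) (hα : α ∈ Ioo (-Real.pi) Real.pi) :
    pc r α ∈ {w : ℂ | 0 < cr 1 w 0 ∧ dq 1 0 φ w < 0} ↔
      α ∈ Ioo 0 φ ∧ r ∈ Ioo 0 (Real.sin (φ - α) / Real.sin φ) := by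
  rw [mem_setOf_eq, cr_eq, pc_im, dq_pc]
  have hsφ : 0 < Real.sin φ := Real.sin_pos_of_pos_of_lt_pi hφ.1 hφ.2
  have e1 : Real.sin (φ - α) = - Real.sin (α - φ) := by rw [← Real.sin_neg]; congr 1; ring
  constructor
  · rintro ⟨h1, h2⟩
    have h3 : 0 < Real.sin α := (mul_pos_iff_of_pos_left hr).mp h1
    have h4 : 0 < α := by
      by_contra h
      push Not at h
      have := Real.sin_nonpos_of_nonpos_of_neg_pi_le h hα.1.le
      linarith
    have h5 : α < φ := by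
      by_contra h
      push Not at h
      have : 0 ≤ Real.sin (α - φ) := Real.sin_nonneg_of_nonneg_of_le_pi (by linarith)
        (by linarith [hα.2, hφ.1])
      nlinarith [mul_nonneg hr.le this, mul_pos (pow_pos hr 2) hsφ]
    refine ⟨⟨h4, h5⟩, hr, ?_⟩
    rw [lt_div_iff₀ hsφ, e1]
    have : r * (Real.sin (α - φ) + r * Real.sin φ) < r * 0 := by nlinarith
    have := lt_of_mul_lt_mul_left this hr.le
    linarith
  · rintro ⟨⟨h4, h5⟩, _, h6⟩
    have hsα : 0 < Real.sin α := Real.sin_pos_of_pos_of_lt_pi h4 hα.2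
    refine ⟨mul_pos hr hsα, ?_⟩
    rw [lt_div_iff₀ hsφ, e1] at h6
    nlinarith

theorem measA (φ : ℝ) : MeasurableSet {w : ℂ | 0 < cr 1 w 0 ∧ dq 1 0 φ w < 0} := by
  have c1 : Continuous fun w : ℂ => cr 1 w 0 := by unfold cr; fun_prop
  have c2 : Continuous fun w : ℂ => dq 1 0 φ w := by unfold dq; fun_prop
  exact ((isOpen_lt continuous_const c1).inter (isOpen_lt c2 continuous_const)).measurableSet

theorem PVm (φ : ℝ) (hφ : φ ∈ Ioo (0 : ℝ) Real.pi) (p q : ℕ) (f g : ℝ → ℝ)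
    (hf : Measurable f) (hg : Measurable g) :
  ∫⁻ w in {w : ℂ | 0 < cr 1 w 0 ∧ dq 1 0 φ w < 0},
    ENNReal.ofReal (‖1 - w‖ ^ (2 * p) * f (al 1 w 0)) *
      ENNReal.ofReal (‖w - 0‖ ^ (2 * q) * g (ps 1 w 0)) =
  ∫⁻ α in Ioo (0 : ℝ) φ, ∫⁻ ψ in Ioo (0 : ℝ) (φ - α),
    ENNReal.ofReal ((Real.sin α / Real.sin (α + ψ)) ^ (2 * p) * f α) *
    ENNReal.ofReal ((Real.sin ψ / Real.sin (α + ψ)) ^ (2 * q) * g ψ) *
    ENNReal.ofReal (Real.sin α * Real.sin ψ / Real.sin (α + ψ) ^ 3) := by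
  set A : Set ℂ := {w : ℂ | 0 < cr 1 w 0 ∧ dq 1 0 φ w < 0} with hA
  set F : ℂ → ℝ≥0∞ := fun w => ENNReal.ofReal (‖1 - w‖ ^ (2 * p) * f (al 1 w 0)) *
      ENNReal.ofReal (‖w - 0‖ ^ (2 * q) * g (ps 1 w 0)) with hF
  have hAm : MeasurableSet A := measA φ
  have hFm : Measurable F := by
    have m1 : Measurable fun w : ℂ => al 1 w 0 := by unfold al; fun_prop
    have m2 : Measurable fun w : ℂ => ps 1 w 0 := by unfold ps; fun_prop
    have m3 : Measurable fun w : ℂ => f (al 1 w 0) := hf.comp m1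
    have m4 : Measurable fun w : ℂ => g (ps 1 w 0) := hg.comp m2
    rw [hF]
    fun_prop
  have hpcm : Measurable fun x : ℝ × ℝ => pc x.1 x.2 := by unfold pc; fun_prop
  rw [← lintegral_indicator hAm]
  have h1 : ∫⁻ w, A.indicator F w = ∫⁻ x in Ioi (0 : ℝ) ×ˢ Ioo (-Real.pi) Real.pi,
      ENNReal.ofReal x.1 * A.indicator F (pc x.1 x.2) := by
    rw [← Complex.lintegral_comp_polarCoord_symm]
    rw [show polarCoord.target = Ioi (0 : ℝ) ×ˢ Ioo (-Real.pi) Real.pi from rfl]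
    refine lintegral_congr fun x => ?_
    rw [Complex.polarCoord_symm_apply, smul_eq_mul, pc]
  rw [h1, Measure.volume_eq_prod, ← Measure.prod_restrict, lintegral_prod_symm']
  swap
  · exact (ENNReal.measurable_ofReal.comp measurable_fst).mul ((hFm.indicator hAm).comp hpcm)
  have h2 : ∀ α ∈ Ioo (-Real.pi) Real.pi,
      ∫⁻ r in Ioi (0 : ℝ), ENNReal.ofReal r * A.indicator F (pc r α) =
      (Ioo 0 φ).indicator (fun α => ∫⁻ ψ in Ioo (0 : ℝ) (φ - α),
        ENNReal.ofReal ((Real.sin α / Real.sin (α + ψ)) ^ (2 * p) * f α) *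
        ENNReal.ofReal ((Real.sin ψ / Real.sin (α + ψ)) ^ (2 * q) * g ψ) *
        ENNReal.ofReal (Real.sin α * Real.sin ψ / Real.sin (α + ψ) ^ 3)) α := by
    intro α hα
    by_cases h3 : α ∈ Ioo 0 φ
    · rw [indicator_of_mem h3]
      obtain ⟨him, hinj⟩ := rho_image hφ.2 h3
      have h4 : ∫⁻ r in Ioi (0 : ℝ), ENNReal.ofReal r * A.indicator F (pc r α) =
          ∫⁻ r in Ioi (0 : ℝ), (Ioo 0 (Real.sin (φ - α) / Real.sin φ)).indicator
            (fun r => ENNReal.ofReal r * F (pc r α)) r := by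
        refine setLIntegral_congr_fun measurableSet_Ioi fun r hr => ?_
        have h5 := pc_mem (φ := φ) hφ hr hα
        by_cases h6 : r ∈ Ioo 0 (Real.sin (φ - α) / Real.sin φ)
        · rw [indicator_of_mem h6, indicator_of_mem (h5.mpr ⟨h3, h6⟩)]
        · rw [indicator_of_notMem h6, indicator_of_notMem (fun h => h6 (h5.mp h).2), mul_zero]
      rw [h4, setLIntegral_indicator measurableSet_Ioo,
        inter_eq_left.mpr (fun r hr => hr.1), ← him,
        lintegral_image_eq_lintegral_abs_deriv_mul measurableSet_Ioo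
          (f' := fun ψ => Real.sin α / Real.sin (α + ψ) ^ 2) ?_ hinj]
      · refine setLIntegral_congr_fun measurableSet_Ioo fun ψ hψ => ?_
        have hs : 0 < Real.sin (α + ψ) :=
          Real.sin_pos_of_pos_of_lt_pi (by linarith [h3.1, hψ.1]) (by linarith [hφ.2, hψ.2])
        have hsα : 0 < Real.sin α := Real.sin_pos_of_pos_of_lt_pi h3.1 (by linarith [h3.2, hφ.2])
        have hsψ : 0 < Real.sin ψ :=
          Real.sin_pos_of_pos_of_lt_pi hψ.1 (by linarith [h3.1, hψ.2, hφ.2])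
        have hr0 : 0 < rho α ψ := div_pos hsψ hs
        have g1 : ‖1 - pc (rho α ψ) α‖ = Real.sin α / Real.sin (α + ψ) := by
          rw [one_sub_pc hs.ne', norm_mul, norm_cs, mul_one, Complex.norm_real,
            Real.norm_of_nonneg (div_pos hsα hs).le]
        have g2 : ‖pc (rho α ψ) α - 0‖ = Real.sin ψ / Real.sin (α + ψ) := by
          rw [sub_zero, norm_pc hr0.le, rho]
        have g3 : al 1 (pc (rho α ψ) α) 0 = α := by
          rw [al, sub_zero, sub_zero, div_one]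
          exact arg_pc hr0 ⟨hα.1, hα.2.le⟩
        have g4 : ps 1 (pc (rho α ψ) α) 0 = ψ :=
          ps_pc hs hsα ⟨by linarith [hψ.1, Real.pi_pos], by linarith [hψ.2, h3.1, hφ.2]⟩
        simp only [hF]
        rw [g1, g2, g3, g4, abs_of_pos (div_pos hsα (pow_pos hs 2)), ← mul_assoc,
          ← ENNReal.ofReal_mul (div_pos hsα (pow_pos hs 2)).le, mul_comm]
        congr 2
        rw [rho]
        field_simp
      · intro ψ hψ
        have hs : 0 < Real.sin (α + ψ) :=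
          Real.sin_pos_of_pos_of_lt_pi (by linarith [h3.1, hψ.1]) (by linarith [hφ.2, hψ.2])
        exact (rho_deriv hs.ne').hasDerivWithinAt
    · rw [indicator_of_notMem h3]
      rw [setLIntegral_congr_fun (g := fun _ => 0) measurableSet_Ioi, lintegral_zero]
      intro r hr
      have h5 := pc_mem (φ := φ) hφ hr hα
      simp only
      rw [indicator_of_notMem (fun h => h3 (h5.mp h).1), mul_zero]
  rw [setLIntegral_congr_fun measurableSet_Ioo h2, setLIntegral_indicator measurableSet_Ioo,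
    inter_eq_left.mpr]
  exact Ioo_subset_Ioo (by linarith [Real.pi_pos]) hφ.2.le

theorem PV : S_PV := by
  classical
  intro φ hφ p q f g hf hg
  set f1 := (Ioo 0 Real.pi).indicator f with hf1
  set g1 := (Ioo 0 Real.pi).indicator g with hg1
  have mf : Measurable f1 := by
    rw [hf1, ← piecewise_eq_indicator]
    exact hf.measurable_piecewise continuousOn_const measurableSet_Ioo
  have mg : Measurable g1 := by
    rw [hg1, ← piecewise_eq_indicator]
    exact hg.measurable_piecewise continuousOn_const measurableSet_Ioo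
  have key := PVm φ hφ p q f1 g1 mf mg
  have hAm := measA φ
  have e1 : ∫⁻ w in {w : ℂ | 0 < cr 1 w 0 ∧ dq 1 0 φ w < 0},
      ENNReal.ofReal (‖1 - w‖ ^ (2 * p) * f (al 1 w 0)) *
      ENNReal.ofReal (‖w - 0‖ ^ (2 * q) * g (ps 1 w 0)) =
      ∫⁻ w in {w : ℂ | 0 < cr 1 w 0 ∧ dq 1 0 φ w < 0},
      ENNReal.ofReal (‖1 - w‖ ^ (2 * p) * f1 (al 1 w 0)) *
      ENNReal.ofReal (‖w - 0‖ ^ (2 * q) * g1 (ps 1 w 0)) := by
    refine setLIntegral_congr_fun hAm fun w hw => ?_
    have him : 0 < w.im := by have := hw.1; rwa [cr_eq] at this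
    have a1 : al 1 w 0 ∈ Ioo 0 Real.pi := by
      rw [al, sub_zero, sub_zero, div_one]; exact arg_mem him
    have a2 : ps 1 w 0 ∈ Ioo 0 Real.pi := arg_mem (ps_im him)
    rw [hf1, hg1, indicator_of_mem a1, indicator_of_mem a2]
  rw [e1, key]
  refine setLIntegral_congr_fun measurableSet_Ioo fun α hα => ?_
  refine setLIntegral_congr_fun measurableSet_Ioo fun ψ hψ => ?_
  have a1 : α ∈ Ioo 0 Real.pi := ⟨hα.1, by linarith [hα.2, hφ.2]⟩
  have a2 : ψ ∈ Ioo 0 Real.pi := ⟨hψ.1, by linarith [hα.1, hψ.2, hφ.2]⟩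
  rw [hf1, hg1, indicator_of_mem a1, indicator_of_mem a2]

end Pool.Agent.Helper2.DISC
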